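import Pool.Agent.H174.GP.StA

/-!
Project GP (helper174), statement A4: atypical Durfee sizes are negligible, by helper358.
-/

set_option autoImplicit false

open MeasureTheory ProbabilityTheory Finset

namespace Pool.Agent.H358.GP174

open Pool.Agent.H174.GP

theorem cnt_eq_zero (d m : ℕ) (h : m < d ^ 2) : cnt d m = 0 := by
  unfold cnt
  have h1 : {gh : (Fin d → ℕ) × (Fin d → ℕ) |
      d ^ 2 + ∑ i : Fin d, ((i : ℕ) + 1) * (gh.1 i + gh.2 i) = m} = ∅ := by
    ext gh
    constructor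
    · intro h2
      have h3 : d ^ 2 + ∑ i : Fin d, ((i : ℕ) + 1) * (gh.1 i + gh.2 i) = m := h2
      omega
    · intro h2
      exact absurd h2 (Set.notMem_empty _)
  rw [h1, Set.ncard_empty]

theorem cnt_zero (m : ℕ) (h : 1 ≤ m) : cnt 0 m = 0 := by
  unfold cnt
  have h1 : {gh : (Fin 0 → ℕ) × (Fin 0 → ℕ) |
      0 ^ 2 + ∑ i : Fin 0, ((i : ℕ) + 1) * (gh.1 i + gh.2 i) = m} = ∅ := by
    ext gh
    constructor
    · intro h2
      have h3 : 0 ^ 2 + ∑ i : Fin 0, ((i : ℕ) + 1) * (gh.1 i + gh.2 i) = m := h2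
      rw [Fin.sum_univ_zero] at h3
      omega
    · intro h2
      exact absurd h2 (Set.notMem_empty _)
  rw [h1, Set.ncard_empty]

/-- large Durfee squares -/
theorem large (h2 : S_cntle) (h3 : S_prod1) (n d : ℕ) (x : ℝ) (hx : 0 < x) (hxn : x ^ 2 = n)
    (hd : 141 / 100 * x < d) : (cnt d (2 * n) : ℝ) ≤ Real.exp (44 / 100 * x) := by
  by_cases hdn : 2 * n < d ^ 2
  · rw [cnt_eq_zero d _ hdn, Nat.cast_zero]
    exact (Real.exp_pos _).le
  · push Not at hdn
    have ht : (0 : ℝ) < 20 / x := by positivity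
    have a1 := h2 d (2 * n) (20 / x) ht
    have a2 := h3 d (20 / x) ht
    rw [Finset.prod_pow] at a1
    have hP : 0 ≤ ∏ j ∈ Finset.Icc 1 d, (1 / (1 - Real.exp (-(20 / x * j)))) := by
      refine Finset.prod_nonneg fun j _ => ?_
      have : Real.exp (-(20 / x * j)) ≤ 1 := by
        rw [Real.exp_le_one_iff, neg_nonpos]
        positivity
      have h4 : 0 ≤ 1 - Real.exp (-(20 / x * j)) := by linarith
      positivity
    refine a1.trans ?_
    have a3 : (∏ j ∈ Finset.Icc 1 d, (1 / (1 - Real.exp (-(20 / x * j))))) ^ 2 ≤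
        Real.exp (2 / (20 / x)) ^ 2 := pow_le_pow_left₀ hP a2 2
    refine (mul_le_mul_of_nonneg_left a3 (Real.exp_pos _).le).trans ?_
    rw [← Real.exp_nat_mul, ← Real.exp_add]
    apply Real.exp_le_exp.2
    have b1 : ((2 : ℕ) : ℝ) * (2 / (20 / x)) = 20 / 100 * x := by
      push_cast
      field_simp
      ring
    have b2 : (((2 * n : ℕ) : ℝ) - (d : ℝ) ^ 2) ≤ 119 / 10000 * x ^ 2 := by
      push_cast
      rw [← hxn]
      nlinarith
    have b3 : 20 / x * (((2 * n : ℕ) : ℝ) - (d : ℝ) ^ 2) ≤ 20 / x * (119 / 10000 * x ^ 2) :=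
      mul_le_mul_of_nonneg_left b2 ht.le
    have b4 : 20 / x * (119 / 10000 * x ^ 2) = 238 / 1000 * x := by
      field_simp
      ring
    rw [b1]
    linarith

/-- small Durfee squares -/
theorem small (h2 : S_cntle) (h3 : S_prod2) (n d : ℕ) (x : ℝ) (hx : 0 < x) (hxn : x ^ 2 = n)
    (hd1 : 1 ≤ d) (hd : (d : ℝ) < 1 / 1000000 * x) :
    (cnt d (2 * n) : ℝ) ≤ Real.exp (44 / 100 * x) := by
  have hd0 : (1 : ℝ) ≤ d := by exact_mod_cast hd1
  set t : ℝ := 1 / 20 / x with ht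
  have ht0 : 0 < t := by positivity
  have htd : t * d ≤ 1 := by
    rw [ht, div_mul_eq_mul_div, div_le_one hx]
    linarith
  have a1 := h2 d (2 * n) t ht0
  have a2 := h3 d t ht0 hd1 htd
  rw [Finset.prod_pow] at a1
  have hP : 0 ≤ ∏ j ∈ Finset.Icc 1 d, (1 / (1 - Real.exp (-(t * j)))) := by
    refine Finset.prod_nonneg fun j _ => ?_
    have : Real.exp (-(t * j)) ≤ 1 := by
      rw [Real.exp_le_one_iff, neg_nonpos]
      positivity
    have h4 : 0 ≤ 1 - Real.exp (-(t * j)) := by linarith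
    positivity
  refine a1.trans ?_
  set z : ℝ := 2 * Real.exp 1 / (t * d) with hz
  have hz0 : 0 < z := by positivity
  set s : ℝ := Real.sqrt z with hs
  have hs0 : 0 < s := Real.sqrt_pos.2 hz0
  have hs2 : s ^ 2 = z := Real.sq_sqrt hz0.le
  -- `z ≤ exp (2 s)`
  have a4 : z ≤ Real.exp (2 * s) := by
    have c1 : s ≤ Real.exp s := by linarith [Real.add_one_le_exp s]
    have c2 : s ^ 2 ≤ Real.exp s ^ 2 := pow_le_pow_left₀ hs0.le c1 2
    rw [← Real.exp_nat_mul, hs2] at c2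
    exact_mod_cast c2
  have a5 : z ^ d ≤ Real.exp (d * (2 * s)) := by
    rw [Real.exp_nat_mul]
    exact pow_le_pow_left₀ hz0.le a4 d
  have a3 : (∏ j ∈ Finset.Icc 1 d, (1 / (1 - Real.exp (-(t * j))))) ^ 2 ≤
      Real.exp (d * (2 * s)) ^ 2 := pow_le_pow_left₀ hP (a2.trans a5) 2
  refine (mul_le_mul_of_nonneg_left a3 (Real.exp_pos _).le).trans ?_
  rw [← Real.exp_nat_mul, ← Real.exp_add]
  apply Real.exp_le_exp.2
  -- `4 d s ≤ x / 20`
  have b0 : 4 * d * s ≤ 1 / 20 * x := by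
    have c1 : (4 * d * s) ^ 2 ≤ (1 / 20 * x) ^ 2 := by
      have c2 : (4 * d * s) ^ 2 = 640 * Real.exp 1 * (d * x) := by
        rw [mul_pow, hs2, hz, ht]
        field_simp
        ring
      have c3 : Real.exp 1 < 2.7182818286 := Real.exp_one_lt_d9
      have c4 : (d : ℝ) * x ≤ 1 / 1000000 * x ^ 2 := by nlinarith
      rw [c2]
      have c5 : 640 * Real.exp 1 * (d * x) ≤ 640 * 2.7182818286 * (1 / 1000000 * x ^ 2) := by
        refine mul_le_mul (by linarith) c4 (by positivity) (by positivity)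
      refine c5.trans ?_
      nlinarith [sq_nonneg x]
    exact le_of_sq_le_sq c1 (by positivity)
  have b2 : t * (((2 * n : ℕ) : ℝ) - (d : ℝ) ^ 2) ≤ 1 / 10 * x := by
    have c1 : (((2 * n : ℕ) : ℝ) - (d : ℝ) ^ 2) ≤ 2 * x ^ 2 := by
      push_cast
      rw [← hxn]
      nlinarith
    refine (mul_le_mul_of_nonneg_left c1 ht0.le).trans ?_
    rw [ht]
    apply le_of_eq
    field_simp
    ring
  push_cast at b2 ⊢
  nlinarith

theorem gp_a4 (h1 : S_Count) (h2 : S_cntle) (h3 : S_prod1) (h4 : S_prod2) (h5 : S_plow) :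
    S_A4 := by
  refine ⟨1 / 1000000, by norm_num, 141 / 100, by norm_num, ?_, 1 / 10, by norm_num,
    100000000, ?_⟩
  · rw [Real.lt_sqrt (by norm_num)]
    norm_num
  intro n hn
  set x : ℝ := Real.sqrt n with hx
  have hn0 : (100000000 : ℝ) ≤ n := by exact_mod_cast hn
  have hxn : x ^ 2 = n := Real.sq_sqrt (by positivity)
  have hx4 : 10000 ≤ x := by
    rw [hx]
    apply Real.le_sqrt_of_sq_le
    linarith
  have hx0 : 0 < x := by linarith
  -- each term
  have hterm : ∀ d ∈ (Finset.range (2 * n + 1)).filter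
      (fun d : ℕ => ¬ (1 / 1000000 * x ≤ d ∧ (d : ℝ) ≤ 141 / 100 * x)),
      (cnt d (2 * n) : ℝ) ≤ Real.exp (44 / 100 * x) := by
    intro d hd
    have h6 := (Finset.mem_filter.1 hd).2
    rcases Nat.eq_zero_or_pos d with h7 | h7
    · subst h7
      rw [cnt_zero _ (by omega), Nat.cast_zero]
      exact (Real.exp_pos _).le
    · by_cases h8 : 1 / 1000000 * x ≤ d
      · refine large h2 h3 n d x hx0 hxn ?_
        by_contra h9
        push Not at h9
        exact h6 ⟨h8, h9⟩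
      · push Not at h8
        exact small h2 h4 n d x hx0 hxn h7 h8
  have hsum : (∑ d ∈ (Finset.range (2 * n + 1)).filter
      (fun d : ℕ => ¬ (1 / 1000000 * x ≤ d ∧ (d : ℝ) ≤ 141 / 100 * x)), (cnt d (2 * n) : ℝ)) ≤
      (2 * x ^ 2 + 1) * Real.exp (44 / 100 * x) := by
    refine (Finset.sum_le_card_nsmul _ _ _ hterm).trans ?_
    rw [nsmul_eq_mul]
    refine mul_le_mul_of_nonneg_right ?_ (Real.exp_pos _).le
    have h6 : ((Finset.range (2 * n + 1)).filter
      (fun d : ℕ => ¬ (1 / 1000000 * x ≤ d ∧ (d : ℝ) ≤ 141 / 100 * x))).card ≤ 2 * n + 1 := by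
      refine (Finset.card_filter_le _ _).trans ?_
      rw [Finset.card_range]
    rw [hxn]
    exact_mod_cast h6
  -- the full sum
  have hfull : (∑ d ∈ Finset.range (2 * n + 1), (cnt d (2 * n) : ℝ)) =
      (Nat.card (Nat.Partition (2 * n)) : ℝ) := by
    rw [h1.1 (2 * n), Nat.cast_sum]
  have hlow : Real.exp (69 / 100 * (x - 1)) ≤ (Nat.card (Nat.Partition (2 * n)) : ℝ) := by
    have h6 : (2 : ℝ) ^ (Nat.sqrt n) ≤ (Nat.card (Nat.Partition (2 * n)) : ℝ) := by
      exact_mod_cast h5 n (by omega)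
    refine le_trans ?_ h6
    have h7 : x - 1 ≤ (Nat.sqrt n : ℝ) := by
      have := Real.nat_sqrt_le_real_sqrt (a := n)
      have h8 := Real.real_sqrt_lt_nat_sqrt_succ (a := n)
      linarith
    have h9 : (2 : ℝ) ^ (Nat.sqrt n) = Real.exp (Nat.sqrt n * Real.log 2) := by
      rw [Real.exp_nat_mul, Real.exp_log (by norm_num)]
    rw [h9]
    apply Real.exp_le_exp.2
    have h10 : (0.6931471803 : ℝ) < Real.log 2 := Real.log_two_gt_d9
    have h11 : 0 ≤ (Nat.sqrt n : ℝ) := by positivity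
    nlinarith
  rw [hfull]
  refine hsum.trans ?_
  refine le_trans ?_ (mul_le_mul_of_nonneg_left hlow (Real.exp_pos _).le)
  rw [← Real.exp_add]
  have hkey : (2 * x ^ 2 + 1) ≤ Real.exp (-(1 / 10 * x) + 69 / 100 * (x - 1) - 44 / 100 * x) := by
    have h6 : -(1 / 10 * x) + 69 / 100 * (x - 1) - 44 / 100 * x = 15 / 100 * x + -(69 / 100) := by
      ring
    rw [h6, Real.exp_add]
    have h7 : (15 / 100 * x) ^ 3 / (Nat.factorial 3 : ℝ) ≤ Real.exp (15 / 100 * x) :=
      Real.pow_div_factorial_le_exp (15 / 100 * x) (by positivity) 3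
    have h8 : (1 / 2 : ℝ) ≤ Real.exp (-(69 / 100)) := by
      have h9 : (0.6931471803 : ℝ) < Real.log 2 := Real.log_two_gt_d9
      have h10 : Real.exp (-Real.log 2) ≤ Real.exp (-(69 / 100)) :=
        Real.exp_le_exp.2 (by linarith)
      rw [Real.exp_neg, Real.exp_log (by norm_num)] at h10
      linarith
    have h9 : (15 / 100 * x) ^ 3 / (Nat.factorial 3 : ℝ) * (1 / 2) ≤
        Real.exp (15 / 100 * x) * Real.exp (-(69 / 100)) :=
      mul_le_mul h7 h8 (by norm_num) (Real.exp_pos _).le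
    refine le_trans ?_ h9
    have h10 : (Nat.factorial 3 : ℝ) = 6 := by norm_num [Nat.factorial]
    rw [h10]
    nlinarith [mul_nonneg (sq_nonneg x) (by linarith : (0 : ℝ) ≤ x - 10000), sq_nonneg x]
  calc (2 * x ^ 2 + 1) * Real.exp (44 / 100 * x)
      ≤ Real.exp (-(1 / 10 * x) + 69 / 100 * (x - 1) - 44 / 100 * x) *
        Real.exp (44 / 100 * x) := mul_le_mul_of_nonneg_right hkey (Real.exp_pos _).le
    _ = Real.exp (-(1 / 10 * x) + 69 / 100 * (x - 1)) := by
      rw [← Real.exp_add]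
      congr 1
      ring

end Pool.Agent.H358.GP174
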