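import Pool.Agent.H174.GP.StI

/-!
# Bridge estimate for the Gaussian walk
-/

open MeasureTheory ProbabilityTheory Finset Filter Topology

namespace Pool.Agent.H358.GP174.Brid

open Pool.Agent.H174.GP

theorem law_coord (i : ℕ) : GA.map (fun ω : ℕ → ℝ => ω i) = gaussianReal 0 1 := by
  unfold GA
  exact Measure.infinitePi_map_eval _ i

theorem gauss_coord (i : ℕ) : HasGaussianLaw (fun ω : ℕ → ℝ => ω i) GA := by
  have : IsGaussian (GA.map (fun ω : ℕ → ℝ => ω i)) := by rw [law_coord]; infer_instance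
  exact IsGaussian.hasGaussianLaw

theorem indep_coord : iIndepFun (fun (i : ℕ) (ω : ℕ → ℝ) => ω i) GA := by
  unfold GA
  exact iIndepFun_infinitePi (X := fun _ x => x) (by fun_prop)

theorem joint (N : ℕ) : HasGaussianLaw (fun (ω : ℕ → ℝ) (i : Fin N) => ω ((i : ℕ) + 1)) GA :=
  iIndepFun.hasGaussianLaw (X := fun (i : Fin N) (ω : ℕ → ℝ) => ω ((i : ℕ) + 1))
    (fun i => gauss_coord _)
    (indep_coord.precomp (g := fun i : Fin N => (i : ℕ) + 1) fun i j h => by
      have : (i : ℕ) + 1 = (j : ℕ) + 1 := h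
      exact Fin.ext (by omega))

theorem int_coord (i : ℕ) : ∫ ω : ℕ → ℝ, ω i ∂GA = 0 := by
  have h := integral_map (μ := GA) (φ := fun ω : ℕ → ℝ => ω i) (f := fun x : ℝ => x)
    (measurable_pi_apply i).aemeasurable (by fun_prop)
  rw [law_coord, integral_id_gaussianReal] at h
  exact h.symm

theorem var_coord (i : ℕ) : Var[fun ω : ℕ → ℝ => ω i; GA] = 1 := by
  have h := variance_map (μ := GA) (X := fun x : ℝ => x) (Y := fun ω : ℕ → ℝ => ω i)
    (by fun_prop) (measurable_pi_apply i).aemeasurable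
  rw [law_coord, variance_fun_id_gaussianReal] at h
  have h2 : ((fun x : ℝ => x) ∘ fun ω : ℕ → ℝ => ω i) = fun ω : ℕ → ℝ => ω i := rfl
  rw [h2] at h
  rw [← h]
  norm_num

theorem cov_coord (i k : ℕ) : cov[fun ω : ℕ → ℝ => ω i, fun ω : ℕ → ℝ => ω k; GA] = if i = k then 1 else 0 := by
  by_cases h : i = k
  · subst h
    rw [if_pos rfl, covariance_self (measurable_pi_apply i).aemeasurable, var_coord]
  · rw [if_neg h]
    exact (indep_coord.indepFun h).covariance_eq_zero (gauss_coord i).memLp_two (gauss_coord k).memLp_two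

/-- covariance of linear combinations -/
theorem cov_lin (N : ℕ) (a b : Fin N → ℝ) :
    cov[fun ω : ℕ → ℝ => ∑ i : Fin N, a i * ω ((i : ℕ) + 1), fun ω : ℕ → ℝ => ∑ k : Fin N, b k * ω ((k : ℕ) + 1); GA] =
      ∑ i, a i * b i := by
  rw [covariance_fun_sum_fun_sum (X := fun (i : Fin N) (ω : ℕ → ℝ) => a i * ω ((i : ℕ) + 1))
    (Y := fun (i : Fin N) (ω : ℕ → ℝ) => b i * ω ((i : ℕ) + 1))
    (fun i => (gauss_coord _).memLp_two.const_mul _) (fun i => (gauss_coord _).memLp_two.const_mul _)]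
  refine Finset.sum_congr rfl fun i _ => ?_
  rw [Finset.sum_eq_single i]
  · rw [covariance_const_mul_left, covariance_const_mul_right, cov_coord, if_pos rfl, mul_one]
  · intro k _ hk
    rw [covariance_const_mul_left, covariance_const_mul_right, cov_coord, if_neg, mul_zero, mul_zero]
    intro h
    exact hk (Fin.ext (by omega))
  · intro h; exact absurd (Finset.mem_univ _) h

theorem S_eq_range (ω : ℕ → ℝ) (n : ℕ) : S ω n = ∑ i ∈ Finset.range n, ω (i + 1) := by
  unfold S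
  induction n with
  | zero => simp
  | succ n ih => rw [Finset.sum_Icc_succ_top (by omega), Finset.sum_range_succ, ih]

theorem S_eq_fin (ω : ℕ → ℝ) (N n : ℕ) (hn : n ≤ N) :
    S ω n = ∑ i : Fin N, (if (i : ℕ) < n then (1 : ℝ) else 0) * ω ((i : ℕ) + 1) := by
  rw [S_eq_range, ← Finset.sum_range (fun i => (if i < n then (1 : ℝ) else 0) * ω (i + 1))]
  have hsub : Finset.range n ⊆ Finset.range N := Finset.range_subset_range.2 hn
  rw [← Finset.sum_subset hsub]
  · refine Finset.sum_congr rfl fun i hi => ?_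
    rw [if_pos (Finset.mem_range.1 hi), one_mul]
  · intro i _ hi
    rw [if_neg (fun h => hi (Finset.mem_range.2 h)), zero_mul]

/-- coefficients of the bridge -/
noncomputable def cf (N : ℕ) (j i : Fin N) : ℝ := (if (i : ℕ) < (j : ℕ) + 1 then (1 : ℝ) else 0) - (((j : ℕ) : ℝ) + 1) / N

theorem bridge_eq (ω : ℕ → ℝ) (N : ℕ) (j : Fin N) :
    ∑ i : Fin N, cf N j i * ω ((i : ℕ) + 1) = S ω ((j : ℕ) + 1) - (((j : ℕ) : ℝ) + 1) / N * S ω N := by
  rw [S_eq_fin ω N ((j : ℕ) + 1) (by have := j.2; omega), S_eq_fin ω N N le_rfl, Finset.mul_sum,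
    ← Finset.sum_sub_distrib]
  refine Finset.sum_congr rfl fun i _ => ?_
  rw [if_pos i.2]
  unfold cf
  ring

theorem total_eq (ω : ℕ → ℝ) (N : ℕ) : ∑ i : Fin N, (1 : ℝ) * ω ((i : ℕ) + 1) = S ω N := by
  rw [S_eq_fin ω N N le_rfl]
  refine Finset.sum_congr rfl fun i _ => ?_
  rw [if_pos i.2]

theorem sum_cf (N : ℕ) (j : Fin N) : ∑ i : Fin N, (1 : ℝ) * cf N j i = 0 := by
  have h := bridge_eq (fun _ => 1) N j
  simp only [mul_one] at h
  simp only [one_mul]
  rw [h]
  have hS : ∀ n : ℕ, S (fun _ => (1 : ℝ)) n = n := by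
    intro n
    rw [S_eq_range]
    simp
  rw [hS, hS]
  have hN : (N : ℝ) ≠ 0 := by
    have := j.2
    have : 0 < N := by omega
    positivity
  push_cast
  field_simp
  ring

/-- independence -/
theorem indep (N : ℕ) : IndepFun (fun (ω : ℕ → ℝ) (_ : Fin 1) => S ω N)
    (fun (ω : ℕ → ℝ) (j : Fin N) => S ω ((j : ℕ) + 1) - (((j : ℕ) : ℝ) + 1) / N * S ω N) GA := by
  have h1 : HasGaussianLaw (fun ω : ℕ → ℝ => ((fun _ : Fin 1 => ∑ i : Fin N, (1 : ℝ) * ω ((i : ℕ) + 1)),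
      (fun j : Fin N => ∑ i : Fin N, cf N j i * ω ((i : ℕ) + 1)))) GA := by
    have h2 := (joint N).map_fun (ContinuousLinearMap.prod
      (ContinuousLinearMap.pi fun _ : Fin 1 => ∑ i : Fin N, (1 : ℝ) • ContinuousLinearMap.proj (R := ℝ) (φ := fun _ : Fin N => ℝ) i)
      (ContinuousLinearMap.pi fun j : Fin N => ∑ i : Fin N, cf N j i • ContinuousLinearMap.proj (R := ℝ) (φ := fun _ : Fin N => ℝ) i))
    refine h2.congr (Eventually.of_forall fun ω => ?_)
    refine Prod.ext ?_ ?_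
    · funext k
      simp
    · funext k
      simp
  have h3 := HasGaussianLaw.indepFun_of_covariance_eval (P := GA)
    (X := fun (_ : Fin 1) (ω : ℕ → ℝ) => ∑ i : Fin N, (1 : ℝ) * ω ((i : ℕ) + 1))
    (Y := fun (j : Fin N) (ω : ℕ → ℝ) => ∑ i : Fin N, cf N j i * ω ((i : ℕ) + 1)) h1
    (fun _ j => by rw [cov_lin, sum_cf])
  simp only [total_eq, bridge_eq] at h3
  exact h3

theorem gauss_S (N : ℕ) : HasGaussianLaw (fun ω : ℕ → ℝ => S ω N) GA := by
  have h2 := (joint N).map_fun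
    (∑ i : Fin N, (1 : ℝ) • ContinuousLinearMap.proj (R := ℝ) (φ := fun _ : Fin N => ℝ) i)
  refine h2.congr (Eventually.of_forall fun ω => ?_)
  show _ = S ω N
  rw [← total_eq]
  simp

theorem law_S (N : ℕ) : GA.map (fun ω : ℕ → ℝ => S ω N) = gaussianReal 0 (N : NNReal) := by
  have h := (gauss_S N).map_eq_gaussianReal
  have hmean : ∫ ω : ℕ → ℝ, S ω N ∂GA = 0 := by
    unfold S
    rw [integral_finsetSum]
    · exact Finset.sum_eq_zero fun i _ => int_coord i
    · intro i _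
      exact (gauss_coord i).integrable
  have hvar : Var[fun ω : ℕ → ℝ => S ω N; GA] = N := by
    rw [← covariance_self (gauss_S N).aemeasurable]
    have h1 := cov_lin N (fun _ => 1) (fun _ => 1)
    simp only [total_eq] at h1
    rw [h1]
    simp
  rw [h, hmean, hvar]
  congr 1
  exact Real.toNNReal_natCast N

/-- the end point -/
theorem end_bd (N : ℕ) (y : ℝ) (hN : 1 ≤ N) (hy : 0 ≤ y) :
    1 / Real.sqrt (2 * Real.pi * N) * Real.exp (-((y + 1) ^ 2 / (2 * N))) ≤
      GA.real ((fun ω : ℕ → ℝ => S ω N) ⁻¹' Set.Ico (-y - 1) (-y)) := by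
  have hN0 : (0 : ℝ) < N := by positivity
  have hNN : (N : NNReal) ≠ 0 := by
    have : N ≠ 0 := by omega
    exact_mod_cast this
  have hm : Measurable fun ω : ℕ → ℝ => S ω N := by
    unfold S
    exact Finset.measurable_sum _ fun i _ => measurable_pi_apply i
  rw [← map_measureReal_apply hm measurableSet_Ico, law_S]
  have h1 : (gaussianReal 0 (N : NNReal)).real (Set.Ico (-y - 1) (-y)) =
      ∫ x in Set.Ico (-y - 1) (-y), gaussianPDFReal 0 (N : NNReal) x := by
    unfold Measure.real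
    rw [gaussianReal_apply_eq_integral 0 hNN, ENNReal.toReal_ofReal]
    exact integral_nonneg fun x => gaussianPDFReal_nonneg _ _ _
  rw [h1]
  set c := 1 / Real.sqrt (2 * Real.pi * N) * Real.exp (-((y + 1) ^ 2 / (2 * N))) with hc
  have h2 : ∫ x in Set.Ico (-y - 1) (-y), c = c := by
    rw [setIntegral_const]
    unfold Measure.real
    rw [Real.volume_Ico, smul_eq_mul]
    have : -y - (-y - 1) = 1 := by ring
    rw [this, ENNReal.ofReal_one, ENNReal.toReal_one, one_mul]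
  rw [← h2]
  refine setIntegral_mono_on (integrableOn_const (by rw [Real.volume_Ico]; exact ENNReal.ofReal_ne_top))
    (integrable_gaussianPDFReal _ _).integrableOn measurableSet_Ico fun x hx => ?_
  rw [hc, one_div]
  unfold gaussianPDFReal
  have h3 : ((N : NNReal) : ℝ) = N := NNReal.coe_natCast N
  rw [h3, sub_zero]
  refine mul_le_mul_of_nonneg_left (Real.exp_le_exp.2 ?_) (by positivity)
  rw [neg_div, neg_le_neg_iff]
  have h4 : x ^ 2 ≤ (y + 1) ^ 2 := by
    have h5 := hx.1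
    have h6 := hx.2
    nlinarith
  exact div_le_div_of_nonneg_right h4 (by positivity)

/-- the bridge -/
theorem bridge_bd (h1 : S_gmaxS) (N : ℕ) (hN : 1 ≤ N) :
    1 / 2 ≤ GA.real ((fun (ω : ℕ → ℝ) (j : Fin N) => S ω ((j : ℕ) + 1) - (((j : ℕ) : ℝ) + 1) / N * S ω N) ⁻¹'
      {v | ∀ j, -(20 * Real.sqrt N) ≤ v j}) := by
  have hN0 : (0 : ℝ) < N := by positivity
  have hsq : 0 < Real.sqrt N := Real.sqrt_pos.2 hN0
  have hm : Measurable fun (ω : ℕ → ℝ) (j : Fin N) =>
      S ω ((j : ℕ) + 1) - (((j : ℕ) : ℝ) + 1) / N * S ω N := by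
    have hS : ∀ n, Measurable fun ω : ℕ → ℝ => S ω n := fun n => by
      unfold S
      exact Finset.measurable_sum _ fun i _ => measurable_pi_apply i
    exact measurable_pi_lambda _ fun j => (hS _).sub ((hS _).const_mul _)
  have hms : MeasurableSet {v : Fin N → ℝ | ∀ j, -(20 * Real.sqrt N) ≤ v j} := by
    have : {v : Fin N → ℝ | ∀ j, -(20 * Real.sqrt N) ≤ v j} =
        ⋂ j, {v : Fin N → ℝ | -(20 * Real.sqrt N) ≤ v j} := by
      ext v; simp
    rw [this]
    exact MeasurableSet.iInter fun j => measurableSet_le measurable_const (measurable_pi_apply j)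
  have hB := hm hms
  set B := (fun (ω : ℕ → ℝ) (j : Fin N) => S ω ((j : ℕ) + 1) - (((j : ℕ) : ℝ) + 1) / N * S ω N) ⁻¹'
      {v | ∀ j, -(20 * Real.sqrt N) ≤ v j} with hBdef
  have hcompl : GA.real Bᶜ = 1 - GA.real B := probReal_compl_eq_one_sub hB
  have hS0 : ∀ z : ℕ → ℝ, S z 0 = 0 := fun z => by unfold S; simp
  have hsub : Bᶜ ⊆ {z | ∃ l ∈ Finset.Icc 0 N, 10 * Real.sqrt N ≤ |S z l - S z 0|} := by
    intro z hz
    have h2 : ∃ j : Fin N, S z ((j : ℕ) + 1) - (((j : ℕ) : ℝ) + 1) / N * S z N < -(20 * Real.sqrt N) := by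
      by_contra hcon
      push Not at hcon
      exact hz hcon
    obtain ⟨j, hj⟩ := h2
    have hj1 : ((((j : ℕ) : ℝ) + 1) / N) ≤ 1 := by
      rw [div_le_one hN0]
      have := j.2
      exact_mod_cast this
    have hj0 : 0 ≤ ((((j : ℕ) : ℝ) + 1) / N) := by positivity
    have h3 : |(((j : ℕ) : ℝ) + 1) / N * S z N| ≤ |S z N| := by
      rw [abs_mul, abs_of_nonneg hj0]
      exact mul_le_of_le_one_left (abs_nonneg _) hj1
    by_cases h4 : 10 * Real.sqrt N ≤ |S z N|
    · exact ⟨N, Finset.mem_Icc.2 ⟨by omega, le_rfl⟩, by rw [hS0, sub_zero]; exact h4⟩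
    · refine ⟨(j : ℕ) + 1, Finset.mem_Icc.2 ⟨by omega, by have := j.2; omega⟩, ?_⟩
      rw [hS0, sub_zero]
      push Not at h4
      have h5 := (abs_le.1 (le_refl |S z ((j : ℕ) + 1)|)).1
      have h6 := (abs_le.1 h3).2
      linarith
  have hle : GA.real Bᶜ ≤ 4 * Real.exp (-((10 * Real.sqrt N) ^ 2 / (2 * ((N : ℝ) - (0 : ℕ))))) :=
    (measureReal_mono hsub).trans (h1 0 N (10 * Real.sqrt N) (by omega) (by positivity))
  have h7 : (10 * Real.sqrt N) ^ 2 / (2 * ((N : ℝ) - (0 : ℕ))) = 50 := by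
    rw [mul_pow, Real.sq_sqrt hN0.le]
    push_cast
    rw [sub_zero]
    field_simp
    norm_num
  rw [h7] at hle
  have h8 : Real.exp (-50) ≤ 1 / 8 := by
    rw [Real.exp_neg, ← one_div]
    apply one_div_le_one_div_of_le (by norm_num)
    have := Real.add_one_le_exp (50 : ℝ)
    linarith
  linarith

end Pool.Agent.H358.GP174.Brid

namespace Pool.Agent.H358.GP174

open Pool.Agent.H174.GP Brid

theorem gp_brid (h1 : S_gmaxS) : Pool.Agent.H174.GP.S_brid := by
  intro N y hN hy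
  have hN0 : (0 : ℝ) < N := by positivity
  have hA := end_bd N y hN hy
  have hB := bridge_bd h1 N hN
  have hms : MeasurableSet {v : Fin N → ℝ | ∀ j, -(20 * Real.sqrt N) ≤ v j} := by
    have : {v : Fin N → ℝ | ∀ j, -(20 * Real.sqrt N) ≤ v j} =
        ⋂ j, {v : Fin N → ℝ | -(20 * Real.sqrt N) ≤ v j} := by
      ext v; simp
    rw [this]
    exact MeasurableSet.iInter fun j => measurableSet_le measurable_const (measurable_pi_apply j)
  have hms1 : MeasurableSet {v : Fin 1 → ℝ | v 0 ∈ Set.Ico (-y - 1) (-y)} :=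
    (measurable_pi_apply 0) measurableSet_Ico
  have hind := (indep N).measure_inter_preimage_eq_mul _ _ hms1 hms
  have hA' : (fun (ω : ℕ → ℝ) (_ : Fin 1) => S ω N) ⁻¹' {v : Fin 1 → ℝ | v 0 ∈ Set.Ico (-y - 1) (-y)} =
      (fun ω : ℕ → ℝ => S ω N) ⁻¹' Set.Ico (-y - 1) (-y) := rfl
  rw [hA'] at hind
  have hreal : GA.real ((fun ω : ℕ → ℝ => S ω N) ⁻¹' Set.Ico (-y - 1) (-y) ∩
      (fun (ω : ℕ → ℝ) (j : Fin N) => S ω ((j : ℕ) + 1) - (((j : ℕ) : ℝ) + 1) / N * S ω N) ⁻¹'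
      {v | ∀ j, -(20 * Real.sqrt N) ≤ v j}) =
      GA.real ((fun ω : ℕ → ℝ => S ω N) ⁻¹' Set.Ico (-y - 1) (-y)) *
      GA.real ((fun (ω : ℕ → ℝ) (j : Fin N) => S ω ((j : ℕ) + 1) - (((j : ℕ) : ℝ) + 1) / N * S ω N) ⁻¹'
      {v | ∀ j, -(20 * Real.sqrt N) ≤ v j}) := by
    unfold Measure.real
    rw [hind, ENNReal.toReal_mul]
  have hpos : 0 ≤ 1 / Real.sqrt (2 * Real.pi * N) * Real.exp (-((y + 1) ^ 2 / (2 * N))) := by positivity
  calc 1 / 2 * (1 / Real.sqrt (2 * Real.pi * N) * Real.exp (-((y + 1) ^ 2 / (2 * N))))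
      = (1 / Real.sqrt (2 * Real.pi * N) * Real.exp (-((y + 1) ^ 2 / (2 * N)))) * (1 / 2) := by ring
    _ ≤ _ := mul_le_mul hA hB (by norm_num) (hpos.trans hA)
    _ = _ := hreal.symm
    _ ≤ _ := by
      refine measureReal_mono (fun z hz => ?_) (measure_ne_top _ _)
      obtain ⟨hz1, hz2⟩ := hz
      refine ⟨hz1.1, hz1.2, fun j hj => ?_⟩
      rw [Finset.mem_Icc] at hj
      have h2 := hz2 ⟨j - 1, by omega⟩
      have h3 : ((j - 1 : ℕ) : ℝ) + 1 = j := by
        have : (((j - 1 : ℕ) + 1 : ℕ) : ℝ) = (j : ℝ) := by congr 1; omega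
        push_cast at this
        exact this
      have h4 : (j - 1 : ℕ) + 1 = j := by omega
      change -(20 * Real.sqrt N) ≤ S z ((j - 1 : ℕ) + 1) - (((j - 1 : ℕ) : ℝ) + 1) / N * S z N at h2
      rw [h3, h4] at h2
      have hj1 : (j : ℝ) / N ≤ 1 := by
        rw [div_le_one hN0]
        exact_mod_cast hj.2
      have hj0 : 0 ≤ (j : ℝ) / N := by positivity
      have h5 : (j : ℝ) / N * (-y - 1) ≤ (j : ℝ) / N * S z N := mul_le_mul_of_nonneg_left hz1.1 hj0
      nlinarith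

end Pool.Agent.H358.GP174
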